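import Pool.Agent.H6Z.Grass.Main

/-!
Every Z/2-grading of the Grassmann algebra of countably infinite rank, over a field of
characteristic different from 2, is graded isomorphic to a homogeneous one.
-/

set_option autoImplicit false

namespace Pool.Agent.Results.MP_7c306c_al.AllGradingsHomogeneous

/-- A `ℤ/2`-grading of an `F`-algebra `E`: a decomposition `E = A 0 ⊕ A 1` into subspaces with
`A i * A j ⊆ A (i + j)`. -/
def IsZ2Grading {F E : Type*} [Field F] [Ring E] [Algebra F E] (A : ZMod 2 → Submodule F E) :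
    Prop :=
  IsCompl (A 0) (A 1) ∧ ∀ (i j : ZMod 2), ∀ x ∈ A i, ∀ y ∈ A j, x * y ∈ A (i + j)

/-- Every `ℤ/2`-grading `A` of the exterior algebra of a vector space with a countably infinite
basis `e`, over a field of characteristic not `2`, is graded isomorphic to a grading `B` for which
all generators `e n` are homogeneous. -/
theorem result (F : Type*) [Field F] (hF : ringChar F ≠ 2)
    (L : Type*) [AddCommGroup L] [Module F L] (e : Module.Basis ℕ F L)
    (A : ZMod 2 → Submodule F (ExteriorAlgebra F L)) (hA : IsZ2Grading A) :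
    ∃ B : ZMod 2 → Submodule F (ExteriorAlgebra F L), IsZ2Grading B ∧
      (∀ n : ℕ, ExteriorAlgebra.ι F (e n) ∈ B 0 ∨ ExteriorAlgebra.ι F (e n) ∈ B 1) ∧
      ∃ f : ExteriorAlgebra F L ≃ₐ[F] ExteriorAlgebra F L,
        ∀ i : ZMod 2, ∀ x ∈ A i, f x ∈ B i := by
  have h2 : (2 : F) ≠ 0 := Ring.two_ne_zero hF
  obtain ⟨G, hG⟩ := Pool.Agent.H6Z.Grass.main h2 e (A 0) (A 1) hA.1 (hA.2 0 0) (hA.2 0 1)
    (hA.2 1 0) (hA.2 1 1)
  refine ⟨fun i => (A i).comap G.toLinearEquiv.toLinearMap, ⟨?_, fun i j x hx y hy => ?_⟩, hG,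
    G.symm, fun i x hx => ?_⟩
  · exact (Submodule.orderIsoMapComap G.toLinearEquiv).symm.isCompl hA.1
  · change G (x * y) ∈ A (i + j)
    rw [map_mul]
    exact hA.2 i j _ hx _ hy
  · change G (G.symm x) ∈ A i
    rwa [AlgEquiv.apply_symm_apply]

end Pool.Agent.Results.MP_7c306c_al.AllGradingsHomogeneous
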